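import Pool.Agent.U260.GZ.Stm

/-! Project GZ, package BA: trivial bound for a block -/

set_option autoImplicit false

namespace Pool.Agent.U858.GZ

open Complex Filter Topology MeasureTheory Set
open Pool.Agent.N879.GD

/-- one term of the block -/
theorem term_bound {b : ℕ} {C : ℝ} (hC : 0 < C)
    (hG : ∀ T x ω : ℝ, 0 < T → 1 ≤ |x| * T →
      ‖GG b T x ω‖ ≤ C * (1 + |ω|) ^ (-(1 / 2 : ℝ)) * ((1 + |ω|) / (|x| * T)) ^ b *
        Real.exp (-(|ω| / (2 * (|x| * T)))))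
    {σ T y ω : ℝ} {m R r : ℕ} (hσ : 0 ≤ σ) (hT : 0 < T) (hm : 1 ≤ m) (hR : 1 ≤ R)
    (hr : r ≤ R) (hz : 1 ≤ zz T m R) :
    ‖bt σ b T y ω m (m + R + r)‖ ≤
      C * (√((m : ℝ) * (m + R)))⁻¹ * (1 + |ω|) ^ (-(1 / 2 : ℝ)) * ((1 + |ω|) / zz T m R) ^ b *
        Real.exp (-(|ω| / (4 * zz T m R))) := by
  have hm0 : (1 : ℝ) ≤ m := by exact_mod_cast hm
  have hmp : (0 : ℝ) < m := by linarith
  have hR0 : (1 : ℝ) ≤ R := by exact_mod_cast hR
  have hr0 : (r : ℝ) ≤ R := by exact_mod_cast hr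
  have hrn : (0 : ℝ) ≤ r := Nat.cast_nonneg r
  obtain ⟨n, hn⟩ : ∃ n : ℝ, n = ((m + R + r : ℕ) : ℝ) := ⟨_, rfl⟩
  have hn1 : n = m + R + r := by rw [hn]; push_cast; ring
  have hnp : 0 < n := by rw [hn1]; linarith
  obtain ⟨l, hl⟩ : ∃ l : ℝ, l = Real.log (1 + (R : ℝ) / m) := ⟨_, rfl⟩
  have hzz : zz T m R = T * l := by rw [hl]; rfl
  have hl0 : 0 < l := by
    rw [hl]
    apply Real.log_pos
    have : 0 < (R : ℝ) / m := by positivity
    linarith
  obtain ⟨x, hx⟩ : ∃ x : ℝ, x = Real.log n - Real.log m := ⟨_, rfl⟩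
  have hxl : l ≤ x := by
    rw [hx, hl, ← Real.log_div hnp.ne' hmp.ne']
    apply Real.log_le_log (by positivity)
    rw [hn1, le_div_iff₀ hmp, add_mul, div_mul_cancel₀ _ hmp.ne']
    linarith
  have hxu : x ≤ 2 * l := by
    have h1 : 2 * l = Real.log ((1 + (R : ℝ) / m) ^ 2) := by
      rw [Real.log_pow, hl]
      norm_num
    rw [h1, hx, ← Real.log_div hnp.ne' hmp.ne']
    apply Real.log_le_log (by positivity)
    rw [hn1, div_le_iff₀ hmp]
    have h2 : (1 + (R : ℝ) / m) ^ 2 * m = m + 2 * R + (R : ℝ) ^ 2 / m := by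
      field_simp
      ring
    rw [h2]
    have h3 : 0 ≤ (R : ℝ) ^ 2 / m := by positivity
    linarith
  have hx0 : 0 < x := by linarith
  have habs : |x| = x := abs_of_pos hx0
  have hz1 : T * l ≤ x * T := by nlinarith
  have hz2 : x * T ≤ 2 * (T * l) := by nlinarith
  rw [hzz] at hz ⊢
  have hzp : 0 < T * l := by linarith
  have hxT : 0 < x * T := by linarith
  have hGG := hG T x ω hT (by rw [habs]; linarith)
  rw [habs] at hGG
  have hω : 0 ≤ |ω| := abs_nonneg ω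
  -- the bound of `GG`
  have e1 : ((1 + |ω|) / (x * T)) ^ b ≤ ((1 + |ω|) / (T * l)) ^ b := by
    apply pow_le_pow_left₀ (by positivity)
    exact div_le_div_of_nonneg_left (by positivity) hzp hz1
  have e2 : Real.exp (-(|ω| / (2 * (x * T)))) ≤ Real.exp (-(|ω| / (4 * (T * l)))) := by
    apply Real.exp_le_exp.2
    apply neg_le_neg
    apply div_le_div_of_nonneg_left hω (by positivity)
    linarith
  have e3 : ‖GG b T x ω‖ ≤ C * (1 + |ω|) ^ (-(1 / 2 : ℝ)) * ((1 + |ω|) / (T * l)) ^ b *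
      Real.exp (-(|ω| / (4 * (T * l)))) := by
    refine hGG.trans ?_
    have hp : 0 ≤ C * (1 + |ω|) ^ (-(1 / 2 : ℝ)) := by positivity
    exact mul_le_mul (mul_le_mul_of_nonneg_left e1 hp) e2 (Real.exp_pos _).le (by positivity)
  -- the norm of the summand
  have e4 : ‖bt σ b T y ω m (m + R + r)‖ =
      (√((m : ℝ) * n))⁻¹ * Real.exp (-(σ * Real.log (m * n))) * ‖GG b T x ω‖ := by
    unfold bt
    rw [← hn, ← hx, norm_mul, norm_mul, Complex.norm_real, Complex.norm_exp,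
      Real.norm_of_nonneg (by positivity)]
    congr 3
    simp
  have e5 : (√((m : ℝ) * n))⁻¹ ≤ (√((m : ℝ) * (m + R)))⁻¹ := by
    apply inv_anti₀
    · apply Real.sqrt_pos.2
      positivity
    · apply Real.sqrt_le_sqrt
      apply mul_le_mul_of_nonneg_left _ hmp.le
      rw [hn1]
      linarith
  have e6 : Real.exp (-(σ * Real.log (m * n))) ≤ 1 := by
    rw [Real.exp_le_one_iff, neg_nonpos]
    apply mul_nonneg hσ
    apply Real.log_nonneg
    have : 1 ≤ n := by rw [hn1]; linarith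
    nlinarith
  rw [e4]
  calc (√((m : ℝ) * n))⁻¹ * Real.exp (-(σ * Real.log (m * n))) * ‖GG b T x ω‖
      ≤ (√((m : ℝ) * (m + R)))⁻¹ * 1 * (C * (1 + |ω|) ^ (-(1 / 2 : ℝ)) *
          ((1 + |ω|) / (T * l)) ^ b * Real.exp (-(|ω| / (4 * (T * l))))) := by
        apply mul_le_mul _ e3 (norm_nonneg _) (by positivity)
        exact mul_le_mul e5 e6 (Real.exp_pos _).le (by positivity)
    _ = _ := by ring

theorem t_BA (h : S_GK) : S_BA := by
  intro b hb
  obtain ⟨C, hC, hG⟩ := h b hb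
  refine ⟨C, hC, ?_⟩
  intro σ T y ω m R L hσ _ hT hm hR hL hz
  obtain ⟨B, hB⟩ : ∃ B : ℝ, B = C * (√((m : ℝ) * (m + R)))⁻¹ * (1 + |ω|) ^ (-(1 / 2 : ℝ)) *
      ((1 + |ω|) / zz T m R) ^ b * Real.exp (-(|ω| / (4 * zz T m R))) := ⟨_, rfl⟩
  have hω : 0 ≤ |ω| := abs_nonneg ω
  have hz0 : 0 < zz T m R := by linarith
  have hB0 : 0 ≤ B := by
    rw [hB]
    positivity
  rw [← hB]
  calc ‖∑ r ∈ Finset.range L, bt σ b T y ω m (m + R + r)‖
      ≤ ∑ r ∈ Finset.range L, ‖bt σ b T y ω m (m + R + r)‖ := norm_sum_le _ _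
    _ ≤ ∑ _r ∈ Finset.range L, B := by
        apply Finset.sum_le_sum
        intro r hr
        rw [hB]
        exact term_bound hC hG hσ hT hm hR (by have := Finset.mem_range.1 hr; omega) hz
    _ = L * B := by rw [Finset.sum_const, Finset.card_range, nsmul_eq_mul]
    _ ≤ R * B := by
        apply mul_le_mul_of_nonneg_right _ hB0
        exact_mod_cast hL
    _ = B * R := mul_comm _ _

end Pool.Agent.U858.GZ

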